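import Pool.Agent.N549.HG.Stm

/-!
# Project HG (helper549), part CONT (helper227): the container recursion
-/

set_option autoImplicit false

namespace Pool.Agent.N227.HG

open MeasureTheory Set
open Pool.Agent.N549.HG

/-- the potential -/
noncomputable def pf (L s : ℝ) : ℝ := Real.log (1 + L * s) ^ 2 / 2 + 2 * Real.log (1 + L * s)

/-- its derivative -/
noncomputable def pd (L s : ℝ) : ℝ := L * (Real.log (1 + L * s) + 2) / (1 + L * s)

theorem pf_deriv {L s : ℝ} (h : 0 < 1 + L * s) : HasDerivAt (pf L) (pd L s) s := by
  have h1 : HasDerivAt (fun x : ℝ => 1 + L * x) L s := by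
    simpa using ((hasDerivAt_id s).const_mul L).const_add 1
  have h2 := h1.log h.ne'
  have h3 := ((h2.pow 2).div_const 2).add (h2.const_mul 2)
  refine h3.congr_deriv ?_
  unfold pd
  field_simp
  push_cast
  ring

theorem anti {y Y : ℝ} (hy : 1 ≤ y) (hY : y ≤ Y) : (Real.log Y + 2) / Y ≤ (Real.log y + 2) / y := by
  have hy0 : 0 < y := by linarith
  have hY0 : 0 < Y := by linarith
  rw [div_le_div_iff₀ hY0 hy0]
  have h1 : Real.log Y = Real.log y + Real.log (Y / y) := by
    rw [Real.log_div hY0.ne' hy0.ne']
    ring
  have h2 : Real.log (Y / y) ≤ Y / y - 1 := Real.log_le_sub_one_of_pos (by positivity)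
  have h3 : y * (Y / y - 1) = Y - y := by field_simp
  have h4 : 0 ≤ Real.log y := Real.log_nonneg hy
  have h5 : y * Real.log (Y / y) ≤ Y - y := by
    rw [← h3]
    exact mul_le_mul_of_nonneg_left h2 hy0.le
  rw [h1]
  nlinarith [mul_le_mul_of_nonneg_right hY h4]

theorem pd_anti {L s t : ℝ} (hL : 0 < L) (hs : 0 ≤ s) (hst : s ≤ t) : pd L t ≤ pd L s := by
  unfold pd
  rw [mul_div_assoc, mul_div_assoc]
  have h1 : L * s ≤ L * t := mul_le_mul_of_nonneg_left hst hL.le
  have h2 : 0 ≤ L * s := mul_nonneg hL.le hs
  exact mul_le_mul_of_nonneg_left (anti (by linarith) (by linarith)) hL.le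

theorem pd_pos {L s : ℝ} (hL : 0 < L) (hs : 0 ≤ s) : 0 < pd L s := by
  unfold pd
  have h2 : 0 ≤ L * s := mul_nonneg hL.le hs
  have h3 : 0 ≤ Real.log (1 + L * s) := Real.log_nonneg (by linarith)
  positivity

theorem pf_conc {L s t g : ℝ} (hL : 0 < L) (hs : 0 ≤ s) (hst : s ≤ t) (htg : t ≤ g) :
    pd L g * (t - s) ≤ pf L t - pf L s := by
  have hpos : ∀ x ∈ Icc s t, 0 < 1 + L * x := by
    intro x hx
    have : 0 ≤ L * x := mul_nonneg hL.le (hs.trans hx.1)
    linarith
  refine Convex.mul_sub_le_image_sub_of_le_deriv (convex_Icc s t) ?_ ?_ ?_ s ⟨le_rfl, hst⟩ t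
    ⟨hst, le_rfl⟩ hst
  · intro x hx
    exact (pf_deriv (hpos x hx)).continuousAt.continuousWithinAt
  · intro x hx
    exact (pf_deriv (hpos x (interior_subset hx))).differentiableAt.differentiableWithinAt
  · intro x hx
    have hx' := interior_subset hx
    rw [(pf_deriv (hpos x hx')).deriv]
    exact pd_anti hL (hs.trans hx'.1) (hx'.2.trans htg)

theorem pf_nonneg {L s : ℝ} (hL : 0 < L) (hs : 0 ≤ s) : 0 ≤ pf L s := by
  unfold pf
  have h2 : 0 ≤ L * s := mul_nonneg hL.le hs
  have h3 : 0 ≤ Real.log (1 + L * s) := Real.log_nonneg (by linarith)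
  positivity

theorem pf_mono {L s t : ℝ} (hL : 0 < L) (hs : 0 ≤ s) (hst : s ≤ t) : pf L s ≤ pf L t := by
  have h1 := pf_conc hL hs hst le_rfl
  have h2 := pd_pos hL (hs.trans hst)
  have h3 : 0 ≤ pd L t * (t - s) := mul_nonneg h2.le (by linarith)
  linarith

/-- first case -/
theorem case1 {L M g a d k : ℝ} (hL : 0 < L) (hM : 0 < M) (ha : 0 ≤ a) (had : a ≤ d) (hdg : d ≤ g)
    (hk : g - k ≤ M * (d - a)) (hkL : k * L ≤ 27 / 100) :
    Real.exp (M * pf L (g - a)) + M * L * a * Real.exp (M * pf L (g - d)) ≤
      Real.exp (M * pf L g) := by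
  have hg0 : 0 ≤ g := by linarith
  have h1 := pf_conc hL (s := g - a) (t := g) (g := g) (by linarith) (by linarith) le_rfl
  have h2 := pf_conc hL (s := g - d) (t := g - a) (g := g) (by linarith) (by linarith)
    (by linarith)
  have hp := pd_pos hL hg0
  set p := pd L g with hpdef
  -- the key inequality
  have hkey : L * Real.exp (-(M * (d - a) * p)) ≤ p := by
    set y := 1 + L * g with hy
    have hLg : 0 ≤ L * g := mul_nonneg hL.le hg0
    have hy1 : 1 ≤ y := by linarith
    have hy0 : 0 < y := by linarith
    have hlog : 0 ≤ Real.log y := Real.log_nonneg hy1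
    have hp2 : p = L * (Real.log y + 2) / y := rfl
    have h3 : (Real.log y + 2) / y ≤ 2 := by
      rw [div_le_iff₀ hy0]
      have := Real.log_le_sub_one_of_pos hy0
      linarith
    have h4 : M * (d - a) * p ≥ (g - k) * p := mul_le_mul_of_nonneg_right hk hp.le
    have h5 : (g - k) * p = Real.log y + 2 - (1 + k * L) * ((Real.log y + 2) / y) := by
      rw [hp2]
      have : g * L = y - 1 := by rw [hy]; ring
      field_simp
      linear_combination (Real.log y + 2) * this
    have h6 : -(M * (d - a) * p) ≤ -Real.log y + 54 / 100 := by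
      rcases le_or_gt 0 (1 + k * L) with h | h
      · have h7 : (1 + k * L) * ((Real.log y + 2) / y) ≤ (1 + k * L) * 2 :=
          mul_le_mul_of_nonneg_left h3 h
        linarith
      · have h7 : (1 + k * L) * ((Real.log y + 2) / y) ≤ 0 :=
          mul_nonpos_of_nonpos_of_nonneg h.le (by positivity)
        linarith
    have h8 : Real.exp (54 / 100) ≤ 2 := by
      have e1 : (54 : ℝ) / 100 ≤ Real.log 2 := by
        have := Real.log_two_gt_d9
        linarith
      calc Real.exp (54 / 100) ≤ Real.exp (Real.log 2) := Real.exp_le_exp.2 e1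
        _ = 2 := Real.exp_log (by norm_num)
    calc L * Real.exp (-(M * (d - a) * p)) ≤ L * Real.exp (-Real.log y + 54 / 100) :=
          mul_le_mul_of_nonneg_left (Real.exp_le_exp.2 h6) hL.le
      _ = L * (y⁻¹ * Real.exp (54 / 100)) := by
          rw [Real.exp_add, Real.exp_neg, Real.exp_log hy0]
      _ ≤ L * (y⁻¹ * 2) := by
          refine mul_le_mul_of_nonneg_left (mul_le_mul_of_nonneg_left h8 (by positivity)) hL.le
      _ ≤ p := by
          rw [hp2, mul_div_assoc]
          refine mul_le_mul_of_nonneg_left ?_ hL.le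
          rw [div_eq_inv_mul]
          exact mul_le_mul_of_nonneg_left (by linarith) (by positivity)
  have e1 : Real.exp (M * pf L (g - d)) ≤
      Real.exp (M * pf L (g - a)) * Real.exp (-(M * (d - a) * p)) := by
    rw [← Real.exp_add]
    apply Real.exp_le_exp.2
    have h3 : M * (p * (g - a - (g - d))) ≤ M * (pf L (g - a) - pf L (g - d)) :=
      mul_le_mul_of_nonneg_left h2 hM.le
    nlinarith
  have e2 : Real.exp (M * pf L (g - a)) * (1 + M * (p * a)) ≤ Real.exp (M * pf L g) := by
    have h3 : M * (p * a) ≤ M * (pf L g - pf L (g - a)) := by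
      refine mul_le_mul_of_nonneg_left ?_ hM.le
      have h4 : p * (g - (g - a)) = p * a := by ring
      rwa [h4] at h1
    have h4 : 1 + M * (p * a) ≤ Real.exp (M * (pf L g - pf L (g - a))) := by
      have := Real.add_one_le_exp (M * (pf L g - pf L (g - a)))
      linarith
    calc Real.exp (M * pf L (g - a)) * (1 + M * (p * a)) ≤
        Real.exp (M * pf L (g - a)) * Real.exp (M * (pf L g - pf L (g - a))) :=
          mul_le_mul_of_nonneg_left h4 (Real.exp_pos _).le
      _ = Real.exp (M * pf L g) := by
          rw [← Real.exp_add]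
          congr 1
          ring
  have hMa : 0 ≤ M * a := by positivity
  calc Real.exp (M * pf L (g - a)) + M * L * a * Real.exp (M * pf L (g - d))
      ≤ Real.exp (M * pf L (g - a)) + M * L * a *
        (Real.exp (M * pf L (g - a)) * Real.exp (-(M * (d - a) * p))) := by
        have : 0 ≤ M * L * a := by positivity
        linarith [mul_le_mul_of_nonneg_left e1 this]
    _ = Real.exp (M * pf L (g - a)) * (1 + M * a * (L * Real.exp (-(M * (d - a) * p)))) := by ring
    _ ≤ Real.exp (M * pf L (g - a)) * (1 + M * a * p) := by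
        refine mul_le_mul_of_nonneg_left ?_ (Real.exp_pos _).le
        linarith [mul_le_mul_of_nonneg_left hkey hMa]
    _ = Real.exp (M * pf L (g - a)) * (1 + M * (p * a)) := by ring
    _ ≤ Real.exp (M * pf L g) := e2

/-- second case -/
theorem case2 {L M g a : ℝ} (hL : 0 < L) (hM : 0 < M) (ha : 0 ≤ a) (hag : a ≤ g)
    (hg : L * g ≤ 27 / 100) (hx : M * L * a ≤ 1 / 100) :
    Real.exp (M * pf L (g - a)) ≤ (1 - M * L * a) * Real.exp (M * pf L g) := by
  have hg0 : 0 ≤ g := by linarith
  have h1 := pf_conc hL (s := g - a) (t := g) (g := g) (by linarith) (by linarith) le_rfl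
  have hLg : 0 ≤ L * g := mul_nonneg hL.le hg0
  have h2 : L * (3 / 2) ≤ pd L g := by
    unfold pd
    rw [mul_div_assoc]
    refine mul_le_mul_of_nonneg_left ?_ hL.le
    rw [le_div_iff₀ (by linarith)]
    have : 0 ≤ Real.log (1 + L * g) := Real.log_nonneg (by linarith)
    linarith
  have h3 : L * (3 / 2) * a ≤ pf L g - pf L (g - a) := by
    have h4 : pd L g * (g - (g - a)) = pd L g * a := by ring
    rw [h4] at h1
    exact (mul_le_mul_of_nonneg_right h2 ha).trans h1
  set x := M * L * a with hxdef
  have hx0 : 0 ≤ x := by positivity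
  have h5 : 3 / 2 * x ≤ M * pf L g - M * pf L (g - a) := by
    have := mul_le_mul_of_nonneg_left h3 hM.le
    rw [hxdef]
    nlinarith
  have h6 : 1 + 3 / 2 * x ≤ Real.exp (M * pf L g - M * pf L (g - a)) := by
    have := Real.add_one_le_exp (M * pf L g - M * pf L (g - a))
    linarith
  have h7 : 1 ≤ (1 - x) * (1 + 3 / 2 * x) := by nlinarith
  have h8 : 1 ≤ (1 - x) * Real.exp (M * pf L g - M * pf L (g - a)) :=
    h7.trans (mul_le_mul_of_nonneg_left h6 (by linarith))
  calc Real.exp (M * pf L (g - a)) = Real.exp (M * pf L (g - a)) * 1 := (mul_one _).symm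
    _ ≤ Real.exp (M * pf L (g - a)) * ((1 - x) * Real.exp (M * pf L g - M * pf L (g - a))) :=
        mul_le_mul_of_nonneg_left h8 (Real.exp_pos _).le
    _ = (1 - x) * (Real.exp (M * pf L (g - a)) * Real.exp (M * pf L g - M * pf L (g - a))) := by
        ring
    _ = (1 - x) * Real.exp (M * pf L g) := by
        rw [← Real.exp_add]
        congr 2
        ring

theorem cont : S_CONT := by
  intro Ω _ μ _ N hN hNm hQ D κ lam hD hκ hlam hκL hsup z hz1 hz0 hzm hzr
  set L := lam * D with hL
  set M := 1 / D with hM
  have hL0 : 0 < L := by positivity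
  have hM0 : 0 < M := by positivity
  have hML : M * L = lam := by rw [hM, hL]; field_simp
  have hMD : M * D = 1 := by rw [hM]; field_simp
  set η := 1 / (100 * L) with hη
  have hη0 : 0 < η := by positivity
  have hLη : L * η = 1 / 100 := by rw [hη]; field_simp
  obtain ⟨m, hm⟩ := exists_nat_gt (1 / (η * D))
  have hm0 : (0 : ℝ) < m := lt_trans (by positivity) hm
  have hm1 : 1 ≤ m := by
    have : 0 < m := by exact_mod_cast hm0
    omega
  have hmD : 1 / (m : ℝ) ≤ η * D := by
    rw [div_lt_iff₀ (by positivity)] at hm
    rw [div_le_iff₀ hm0]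
    linarith
  obtain ⟨Q, hQm, hQu, hQs⟩ := hQ m hm1
  have hlamη : lam * η = M * (L * η) := by rw [← hML]; ring
  -- the claim
  have claim : ∀ j : ℕ, ∀ K : Set Ω, MeasurableSet K → μ.real K ≤ η + j * (η / m) →
      z K ≤ Real.exp (M * (L * η) + M * pf L (μ.real K)) := by
    have small : ∀ K : Set Ω, MeasurableSet K → μ.real K ≤ η →
        z K ≤ Real.exp (M * (L * η) + M * pf L (μ.real K)) := by
      intro K hK hKη
      refine (hz1 K hK).trans (Real.exp_le_exp.2 ?_)
      have h1 : lam * μ.real K ≤ lam * η := mul_le_mul_of_nonneg_left hKη hlam.le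
      have h2 : 0 ≤ M * pf L (μ.real K) :=
        mul_nonneg hM0.le (pf_nonneg hL0 measureReal_nonneg)
      rw [← hlamη]
      linarith
    intro j
    induction j with
    | zero =>
      intro K hK h
      rw [Nat.cast_zero, zero_mul, add_zero] at h
      exact small K hK h
    | succ j ih =>
      intro K hK hKj
      by_cases hKη : μ.real K ≤ η
      · exact small K hK hKη
      rw [not_le] at hKη
      set g := μ.real K with hg
      -- the heavy points
      set H : Set Ω := K ∩ {u | D * (g - κ - η) ≤ μ.real (K ∩ N u)} with hH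
      have hHm : MeasurableSet H := hK.inter (measurableSet_le measurable_const (hNm K hK))
      have hHK : H ⊆ K := inter_subset_left
      have hHη : η ≤ μ.real H := by
        set K' := K \ H with hK'
        have hK'm : MeasurableSet K' := hK.diff hHm
        have h1 : μ.real K' = g - μ.real H := by
          rw [hK', measureReal_diff hHK hHm]
        have h2 := hsup K' hK'm
        have h3 : ∫ x in K', μ.real (K' ∩ N x) ∂μ ≤ ∫ x in K', D * (g - κ - η) ∂μ := by
          have hint : Integrable (fun x => μ.real (K' ∩ N x)) μ := by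
            refine Integrable.of_bound (hNm K' hK'm).aestronglyMeasurable 1 ?_
            filter_upwards with x
            rw [Real.norm_eq_abs, abs_of_nonneg measureReal_nonneg]
            exact measureReal_le_one
          refine setIntegral_mono_on hint.integrableOn (integrable_const _).integrableOn hK'm ?_
          intro x hx
          have h4 : μ.real (K' ∩ N x) ≤ μ.real (K ∩ N x) :=
            measureReal_mono (inter_subset_inter_left _ diff_subset)
          have h5 : ¬ D * (g - κ - η) ≤ μ.real (K ∩ N x) := fun h => hx.2 ⟨hx.1, h⟩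
          rw [not_le] at h5
          linarith
        rw [setIntegral_const, smul_eq_mul] at h3
        have h4 := h2.trans h3
        set g' := μ.real K' with hg'
        rcases (measureReal_nonneg : 0 ≤ μ.real K').eq_or_lt with h5 | h5
        · rw [← hg'] at h5
          linarith
        · rw [← hg'] at h5
          have h6 : D * g' * (g' - κ) ≤ D * g' * (g - κ - η) := by nlinarith
          have h7 := le_of_mul_le_mul_left h6 (by positivity)
          linarith
      -- a cell
      obtain ⟨i, hi⟩ : ∃ i, η / m ≤ μ.real (H ∩ Q i) := by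
        by_contra hcon
        push Not at hcon
        have h1 : H = ⋃ i, H ∩ Q i := by rw [← inter_iUnion, hQu, inter_univ]
        have h2 : μ.real H ≤ ∑ i, μ.real (H ∩ Q i) := by
          conv_lhs => rw [h1]
          exact measureReal_iUnion_fintype_le _
        have h3 : ∑ i : Fin m, μ.real (H ∩ Q i) < ∑ _i : Fin m, η / m := by
          refine Finset.sum_lt_sum_of_nonempty ?_ fun i _ => hcon i
          exact ⟨⟨0, by omega⟩, Finset.mem_univ _⟩
        rw [Finset.sum_const, Finset.card_univ, Fintype.card_fin, nsmul_eq_mul,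
          mul_div_cancel₀ _ hm0.ne'] at h3
        linarith
      set B := H ∩ Q i with hB
      have hBm : MeasurableSet B := hHm.inter (hQm i)
      have hBK : B ⊆ K := inter_subset_left.trans hHK
      set a := μ.real B with ha
      have ha0 : 0 ≤ a := measureReal_nonneg
      have haD : a ≤ η * D := by
        refine le_trans ?_ hmD
        exact (measureReal_mono inter_subset_right).trans (hQs i)
      have hag : a ≤ g := measureReal_mono hBK
      have hKB : μ.real (K \ B) = g - a := by rw [measureReal_diff hBK hBm]
      have hcast : ((j + 1 : ℕ) : ℝ) * (η / m) = j * (η / m) + η / m := by push_cast; ring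
      rw [hcast] at hKj
      have ihB := ih (K \ B) (hK.diff hBm) (by rw [hKB]; linarith)
      rw [hKB, Real.exp_add] at ihB
      set d := max 0 (D * (g - κ - η)) with hd
      have hKN : ∀ u ∈ B, μ.real (K \ N u) ≤ g - d := by
        intro u hu
        have h1 : μ.real (K ∩ N u) + μ.real (K \ N u) = g := measureReal_inter_add_diff (hN u)
        have h2 : D * (g - κ - η) ≤ μ.real (K ∩ N u) := hu.1.2
        have h3 : 0 ≤ μ.real (K ∩ N u) := measureReal_nonneg
        have h4 : d ≤ μ.real (K ∩ N u) := max_le h3 h2
        linarith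
      have hxa : M * L * a ≤ 1 / 100 := by
        calc M * L * a ≤ M * L * (η * D) := mul_le_mul_of_nonneg_left haD (by positivity)
          _ = (L * η) * (M * D) := by ring
          _ = 1 / 100 := by rw [hLη, hMD, mul_one]
      have hd2 : D * (g - κ - η) ≤ d := le_max_right _ _
      rw [Real.exp_add]
      set E := Real.exp (M * (L * η)) with hE
      have hE0 : 0 < E := Real.exp_pos _
      by_cases had : a ≤ d
      · -- first case
        have hBne : B.Nonempty := by
          by_contra hne
          rw [not_nonempty_iff_eq_empty] at hne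
          have : a = 0 := by rw [ha, hne, measureReal_empty]
          have h1 : 0 < η / m := by positivity
          linarith
        have hdg : d ≤ g := by
          obtain ⟨u, hu⟩ := hBne
          have h1 := hKN u hu
          have h2 : 0 ≤ μ.real (K \ N u) := measureReal_nonneg
          linarith
        have h1 : ∀ u ∈ B, z (K \ N u) ≤ E * Real.exp (M * pf L (g - d)) := by
          intro u hu
          have h2 := hKN u hu
          have h3 := ih (K \ N u) (hK.diff (hN u)) (by linarith)
          rw [Real.exp_add] at h3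
          refine h3.trans (mul_le_mul_of_nonneg_left (Real.exp_le_exp.2 ?_) hE0.le)
          exact mul_le_mul_of_nonneg_left (pf_mono hL0 measureReal_nonneg h2) hM0.le
        have h2 := hzr K hK B hBK hBm _ h1
        have h3 := case1 (k := κ + 2 * η) hL0 hM0 ha0 had hdg (by
          have h4 : D * (g - κ - 2 * η) ≤ d - a := by nlinarith
          have h5 := mul_le_mul_of_nonneg_left h4 hM0.le
          have h6 : M * (D * (g - κ - 2 * η)) = g - (κ + 2 * η) := by
            rw [← mul_assoc, hMD]
            ring
          rwa [h6] at h5) (by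
          have : (κ + 2 * η) * L = κ * L + 2 * (L * η) := by ring
          rw [this, hLη]
          linarith)
        rw [hML] at h3
        calc z K ≤ z (K \ B) + lam * a * (E * Real.exp (M * pf L (g - d))) := h2
          _ ≤ E * Real.exp (M * pf L (g - a)) + lam * a * (E * Real.exp (M * pf L (g - d))) := by
              linarith
          _ = E * (Real.exp (M * pf L (g - a)) + lam * a * Real.exp (M * pf L (g - d))) := by ring
          _ ≤ E * Real.exp (M * pf L g) := mul_le_mul_of_nonneg_left h3 hE0.le
      · -- second case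
        rw [not_le] at had
        have h1 : ∀ u ∈ B, z (K \ N u) ≤ z K := fun u _ =>
          hzm K (K \ N u) hK (hK.diff (hN u)) diff_subset
        have h2 := hzr K hK B hBK hBm _ h1
        have hgs : g - κ - 2 * η ≤ 0 := by
          by_contra hcon
          rw [not_le] at hcon
          have h3 : 0 < D * (g - κ - 2 * η) := mul_pos hD hcon
          nlinarith
        have h3 := case2 hL0 hM0 ha0 hag (by
          have h4 := mul_le_mul_of_nonneg_left hgs hL0.le
          nlinarith) hxa
        rw [hML] at h3
        have hx1 : 0 < 1 - lam * a := by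
          rw [hML] at hxa
          linarith
        have h4 : (1 - lam * a) * z K ≤ (1 - lam * a) * (E * Real.exp (M * pf L g)) := by
          calc (1 - lam * a) * z K = z K - lam * a * z K := by ring
            _ ≤ z (K \ B) := by linarith
            _ ≤ E * Real.exp (M * pf L (g - a)) := ihB
            _ ≤ E * ((1 - lam * a) * Real.exp (M * pf L g)) :=
                mul_le_mul_of_nonneg_left h3 hE0.le
            _ = (1 - lam * a) * (E * Real.exp (M * pf L g)) := by ring
        exact le_of_mul_le_mul_left h4 hx1
  obtain ⟨j, hj⟩ := exists_nat_gt (1 / (η / m))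
  have h1 := claim j univ MeasurableSet.univ (by
    rw [probReal_univ]
    rw [div_lt_iff₀ (by positivity)] at hj
    linarith)
  refine h1.trans (Real.exp_le_exp.2 ?_)
  rw [probReal_univ, hLη]
  unfold pf
  rw [mul_one, hM]
  have e : 1 / D * (1 / 100) + 1 / D * (Real.log (1 + L) ^ 2 / 2 + 2 * Real.log (1 + L)) =
      (Real.log (1 + L) ^ 2 / 2 + 2 * Real.log (1 + L) + 1 / 100) / D := by
    field_simp
    ring
  rw [e]
  exact div_le_div_of_nonneg_right (by linarith) hD.le

end Pool.Agent.N227.HG
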